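import Pool.Agent.helper37.CZ.Spec

/-!
# Row cz:CLO
-/

set_option autoImplicit false

open scoped Matrix Topology ComplexConjugate
open Filter

namespace Pool.Agent.CZ

lemma CLO_ring {B : Type} [NormedRing B] [CompleteSpace B] (e : B) (he : e * e = e) :
    ∃ ε : ℝ, 0 < ε ∧ ∀ f : B, f * f = f → ‖e - f‖ < ε → ∃ x y : B, x * y = e ∧ y * x = f := by
  set C : ℝ := ‖(1 : B) - 2 * e‖ + 1 with hC
  have hC0 : 0 < C := by positivity
  refine ⟨1 / C, by positivity, ?_⟩
  intro f hf hef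
  set t : B := (1 - 2 * e) * (f - e) with ht
  have ht1 : ‖t‖ < 1 := by
    calc ‖t‖ ≤ ‖(1 : B) - 2 * e‖ * ‖f - e‖ := norm_mul_le _ _
      _ ≤ C * ‖f - e‖ := mul_le_mul_of_nonneg_right (by linarith) (norm_nonneg _)
      _ < C * (1 / C) := by
          apply mul_lt_mul_of_pos_left _ hC0
          rwa [norm_sub_rev]
      _ = 1 := by field_simp
  obtain ⟨z, hz⟩ : ∃ z : Bˣ, (z : B) = 1 - t := ⟨Units.oneSub t ht1, Units.val_oneSub t ht1⟩
  have hz1 : (z : B) = e * f + (1 - e) * (1 - f) := by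
    rw [hz, ht]
    have h1 : (1 - 2 * e) * (f - e) = f - e - 2 * (e * f) + 2 * (e * e) := by noncomm_ring
    rw [h1, he]
    noncomm_ring
  have hez : e * (z : B) = e * f := by
    rw [hz1]
    have h1 : e * (e * f + (1 - e) * (1 - f)) = (e * e) * f + (e - e * e) * (1 - f) := by noncomm_ring
    rw [h1, he, sub_self, zero_mul, add_zero]
  have hzf : (z : B) * f = e * f := by
    rw [hz1]
    have h1 : (e * f + (1 - e) * (1 - f)) * f = e * (f * f) + (1 - e) * (f - f * f) := by noncomm_ring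
    rw [h1, hf, sub_self, mul_zero, add_zero]
  have hef' : e * (z : B) = (z : B) * f := by rw [hez, hzf]
  refine ⟨e * z, ((z⁻¹ : Bˣ) : B) * e, ?_, ?_⟩
  · rw [mul_assoc, ← mul_assoc (z : B), Units.mul_inv, one_mul, he]
  · rw [mul_assoc, ← mul_assoc e e, he, hef', ← mul_assoc, Units.inv_mul, one_mul]

/-- Row CLO. -/
theorem CLO : CLO_stmt := by
  intro A _ _ n e he
  let inst : NormedRing (Matrix (Fin n) (Fin n) A) := Matrix.linftyOpNormedRing
  have hcomp : @CompleteSpace (Matrix (Fin n) (Fin n) A) (inst.toMetricSpace.toPseudoMetricSpace.toUniformSpace) :=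
    (inferInstance : CompleteSpace (Fin n → Fin n → A))
  obtain ⟨ε, hε, h⟩ := @CLO_ring (Matrix (Fin n) (Fin n) A) inst hcomp e he
  refine ⟨ε / (n + 1), by positivity, ?_⟩
  intro f hf hclose
  apply h f hf
  have hn : ‖e - f‖ = (((Finset.univ : Finset (Fin n)).sup fun i : Fin n => ∑ j : Fin n, ‖(e - f) i j‖₊ : NNReal) : ℝ) :=
    Matrix.linfty_opNorm_def (e - f)
  rw [hn]
  have hε' : (0 : NNReal) < ⟨ε, hε.le⟩ := hε
  have h1 : ((Finset.univ : Finset (Fin n)).sup fun i : Fin n => ∑ j : Fin n, ‖(e - f) i j‖₊) < (⟨ε, hε.le⟩ : NNReal) := by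
    rw [Finset.sup_lt_iff hε']
    intro i _
    refine NNReal.coe_lt_coe.1 ?_
    rw [NNReal.coe_sum]
    show ∑ j : Fin n, ‖(e - f) i j‖ < ε
    calc ∑ j : Fin n, ‖(e - f) i j‖ ≤ ∑ j : Fin n, ε / (n + 1) :=
          Finset.sum_le_sum (fun j _ => by rw [Matrix.sub_apply]; exact (hclose i j).le)
      _ = n * (ε / (n + 1)) := by rw [Finset.sum_const, Finset.card_univ, Fintype.card_fin, nsmul_eq_mul]
      _ < ε := by
          rw [← mul_div_assoc, div_lt_iff₀ (by positivity)]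
          nlinarith
  exact h1

end Pool.Agent.CZ
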